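import Mathlib
import Pool.Agent.TH223.E.Final

/-! # MP_edeaa2_an: products of linear forms with a coordinate subspace invariant under a rational
matrix

Let `d ≥ 3`, let `g` be a real invertible `d × d` matrix and let `F` be the product of the linear
forms given by its rows. Let `h` be a limit of matrices `diag(a_n) g γ_n` with `∏ a_n = ±1` and
`γ_n ∈ GL_d(ℤ)` (for instance `h = g`). Suppose that for some proper nonempty set `I` of indices the
span of the rows `h_i`, `i ∈ I`, is invariant under a rational `d × d` matrix `θ` with irreducible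
characteristic polynomial, and that either `|I|` is coprime to `d`, or the field `ℚ[θ]` has no
subfields besides `ℚ` and itself (every element of `ℚ[θ]` is scalar or has irreducible
characteristic polynomial). Then `F` is proportional to an integral form or `F` takes arbitrarily
small values at nonzero integer points. -/

open Filter Topology Polynomial

namespace Pool.Agent.Results.MP_edeaa2_an.InvariantSubspace

theorem result (d : ℕ) (hd : 3 ≤ d) (g h : Matrix (Fin d) (Fin d) ℝ) (hg : g.det ≠ 0)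
    (a : ℕ → Fin d → ℝ) (γ : ℕ → Matrix (Fin d) (Fin d) ℤ)
    (ha : ∀ n, |∏ i, a n i| = 1) (hγ : ∀ n, |(γ n).det| = 1)
    (hlim : Tendsto (fun n => Matrix.diagonal (a n) * g * (γ n).map (Int.cast : ℤ → ℝ)) atTop
      (𝓝 h))
    (I : Finset (Fin d)) (hI : I.Nonempty) (hI' : I ≠ Finset.univ)
    (θ : Matrix (Fin d) (Fin d) ℚ) (hirr : Irreducible θ.charpoly)
    (hinv : ∀ i ∈ I, ∃ c : Fin d → ℝ, ∀ k : Fin d,
      ∑ j : Fin d, h i j * (θ j k : ℝ) = ∑ j ∈ I, c j * h j k)
    (hcond : Nat.Coprime I.card d ∨ ∀ p : ℚ[X], (∃ q : ℚ, aeval θ p = q • 1) ∨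
      Irreducible (aeval θ p).charpoly)
    (hint : ¬ ∃ c : ℝ, c ≠ 0 ∧ ∀ m : Fin d →₀ ℕ, ∃ z : ℤ, MvPolynomial.coeff m
        (c • (∏ i : Fin d, ∑ j : Fin d,
          MvPolynomial.C (g i j) * MvPolynomial.X j : MvPolynomial (Fin d) ℝ)) = (z : ℝ)) :
    ∀ ε : ℝ, 0 < ε → ∃ x : Fin d → ℤ, x ≠ 0 ∧
      |∏ i : Fin d, ∑ j : Fin d, g i j * (x j : ℝ)| < ε :=
  (Pool.Agent.TH223.E.invariant_subspace hd hg a γ ha hγ hlim I hI hI' θ hirr hinv
    hcond).resolve_left hint

end Pool.Agent.Results.MP_edeaa2_an.InvariantSubspace
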