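import Mathlib
import Pool.Agent.TH314.CSD.Two

/-! # MP_edeaa2_an: the conjecture of Cassels and Swinnerton-Dyer and pairs of products with `d - 1`
common factors

Let `d ≥ 3`. The conjecture of Cassels and Swinnerton-Dyer in dimension `d` (`CSD d`) says that a
product `F = l_1 ⋯ l_d` of linearly independent linear forms which is not proportional to an integral
form takes arbitrarily small values at nonzero integer points. We show that it is equivalent to the
following statement, in which there is no arithmetic condition and no exception: for all linearly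
independent `l_1, …, l_d`,

  `l_1 ⋯ l_d` or `(l_1 + l_2) l_2 ⋯ l_d`

takes arbitrarily small values at nonzero integer points. It is also equivalent to the statement that
`l_1 ⋯ l_d` takes arbitrarily small values at nonzero integer points whenever the values of the two
products at the nonzero integer points have the same closure.

Moreover, if both products are bounded below by a positive constant at nonzero integer points, then
none of them is proportional to an integral form, so both are counterexamples.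

In the Lean statement the forms are the rows of a matrix `g` and the row number `i` is replaced by the
sum of the rows number `i` and `j`, for any fixed `i ≠ j`. -/

set_option autoImplicit false

open Filter Topology

namespace Pool.Agent.Results.MP_edeaa2_an.TwoProducts

variable {d : ℕ}

/-- the product of the linear forms given by the rows of `h`, at an integer point -/
noncomputable def F (h : Matrix (Fin d) (Fin d) ℝ) (x : Fin d → ℤ) : ℝ :=
  ∏ i : Fin d, ∑ j : Fin d, h i j * (x j : ℝ)

/-- the product of the linear forms is proportional to a form with integer coefficients -/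
def PropInt (h : Matrix (Fin d) (Fin d) ℝ) : Prop :=
  ∃ c : ℝ, c ≠ 0 ∧ ∀ m : Fin d →₀ ℕ, ∃ z : ℤ, MvPolynomial.coeff m
    (c • (∏ i : Fin d, ∑ j : Fin d,
      MvPolynomial.C (h i j) * MvPolynomial.X j : MvPolynomial (Fin d) ℝ)) = (z : ℝ)

/-- The product of the rows takes arbitrarily small values at nonzero integer points. -/
def Small (g : Matrix (Fin d) (Fin d) ℝ) : Prop :=
  ∀ ε : ℝ, 0 < ε → ∃ x : Fin d → ℤ, x ≠ 0 ∧ |F g x| < ε

/-- The conjecture of Cassels and Swinnerton-Dyer in dimension `d`. -/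
def CSD (d : ℕ) : Prop :=
  ∀ g : Matrix (Fin d) (Fin d) ℝ, g.det ≠ 0 → ¬ PropInt g → Small g

/-- Replace the row number `i` by the sum of the rows number `i` and `j`. -/
def addRow (i j : Fin d) (g : Matrix (Fin d) (Fin d) ℝ) : Matrix (Fin d) (Fin d) ℝ :=
  g.updateRow i (g i + g j)

/-- The closure of the set of values at nonzero integer points. -/
def ValueClosure (g : Matrix (Fin d) (Fin d) ℝ) : Set ℝ :=
  closure {t : ℝ | ∃ x : Fin d → ℤ, x ≠ 0 ∧ F g x = t}

open H715R2 Pool.Agent.W241.Lac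

lemma elem_eq {i j : Fin d} (s : ℝ) (g : Matrix (Fin d) (Fin d) ℝ) :
    (1 + Matrix.of (sg i j s)) * g = g.updateRow i (g i + s • g j) := by
  classical
  ext k l
  rw [Matrix.add_mul, Matrix.one_mul, Matrix.add_apply, Matrix.mul_apply]
  by_cases hk : k = i
  · rw [hk, Matrix.updateRow_self, Pi.add_apply, Pi.smul_apply, smul_eq_mul]
    congr 1
    rw [Finset.sum_eq_single j]
    · simp [sg]
    · intro m _ hm
      simp [sg, hm]
    · intro h
      exact absurd (Finset.mem_univ _) h
  · rw [Matrix.updateRow_ne hk, Finset.sum_eq_zero, add_zero]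
    intro m _
    simp [sg, hk]

lemma addRow_eq (i j : Fin d) (g : Matrix (Fin d) (Fin d) ℝ) :
    addRow i j g = (1 + Matrix.of (sg i j 1)) * g := by
  rw [elem_eq, one_smul, addRow]

lemma addRow_back {i j : Fin d} (hij : i ≠ j) (g : Matrix (Fin d) (Fin d) ℝ) :
    (1 + Matrix.of (sg i j (-1))) * addRow i j g = g := by
  rw [elem_eq, addRow]
  ext k l
  by_cases hk : k = i
  · rw [hk, Matrix.updateRow_self, Pi.add_apply, Pi.smul_apply, Matrix.updateRow_self,
      Matrix.updateRow_ne hij.symm]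
    simp
  · rw [Matrix.updateRow_ne hk, Matrix.updateRow_ne hk]

lemma det_addRow {i j : Fin d} (hij : i ≠ j) (g : Matrix (Fin d) (Fin d) ℝ) :
    (addRow i j g).det = g.det := by
  rw [addRow]
  exact Matrix.det_updateRow_add_self g hij

/-- two products bounded below are two counterexamples -/
lemma pair_not_propInt (hd : 3 ≤ d) {i j : Fin d} (hij : i ≠ j)
    (g : Matrix (Fin d) (Fin d) ℝ) (hg : g.det ≠ 0) (ν : ℝ) (hν : 0 < ν)
    (h1 : ∀ x : Fin d → ℤ, x ≠ 0 → ν ≤ |F g x|)
    (h2 : ∀ x : Fin d → ℤ, x ≠ 0 → ν ≤ |F (addRow i j g) x|) :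
    ¬ PropInt g ∧ ¬ PropInt (addRow i j g) := by
  constructor
  · refine TH314.CSD.not_propInt_pair hd hg hν h1 hij one_ne_zero (s := 1) ?_
    rw [← addRow_eq]
    exact h2
  · refine TH314.CSD.not_propInt_pair hd (by rw [det_addRow hij]; exact hg) hν h2 hij
      (by norm_num : (-1 : ℝ) ≠ 0) ?_
    rw [addRow_back hij]
    exact h1

/-- permuting and scaling the rows -/
lemma normalise {i j i' j' : Fin d} (hij : i ≠ j) (hij' : i' ≠ j') {s : ℝ} (hs : s ≠ 0)
    (h : Matrix (Fin d) (Fin d) ℝ) (hh : h.det ≠ 0) :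
    ∃ g : Matrix (Fin d) (Fin d) ℝ, g.det ≠ 0 ∧ (∀ x, F g x = s * F h x) ∧
      ∀ x, F (addRow i j g) x = s * F ((1 + Matrix.of (sg i' j' s)) * h) x := by
  classical
  set τ := Equiv.swap i i' with hτ
  set σ : Equiv.Perm (Fin d) := τ.trans (Equiv.swap (τ j) j') with hσ
  have hτi : τ i = i' := Equiv.swap_apply_left _ _
  have hτj : τ j ≠ i' := by
    intro h
    rw [← hτi] at h
    exact hij (τ.injective h).symm
  have hσi : σ i = i' := by
    rw [hσ, Equiv.trans_apply, hτi]
    exact Equiv.swap_apply_of_ne_of_ne hτj.symm hij'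
  have hσj : σ j = j' := by
    rw [hσ, Equiv.trans_apply]
    exact Equiv.swap_apply_left _ _
  set v : Fin d → ℝ := fun k => if k = j then s else 1 with hv
  have hvprod : ∏ k, v k = s := by
    rw [Finset.prod_eq_single j]
    · simp [hv]
    · intro k _ hk
      simp [hv, hk]
    · intro h
      exact absurd (Finset.mem_univ _) h
  have hgen : ∀ (h : Matrix (Fin d) (Fin d) ℝ) (x : Fin d → ℤ),
      F (Matrix.diagonal v * h.submatrix σ id) x = s * F h x := by
    intro h x
    have h1 : F (Matrix.diagonal v * h.submatrix σ id) x =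
        ∏ k, (v k * ∑ l, h (σ k) l * (x l : ℝ)) := by
      refine Finset.prod_congr rfl fun k _ => ?_
      rw [Finset.mul_sum]
      refine Finset.sum_congr rfl fun l _ => ?_
      rw [Matrix.diagonal_mul, Matrix.submatrix_apply, id, mul_assoc]
    rw [h1, Finset.prod_mul_distrib, hvprod,
      Equiv.prod_comp σ (fun k => ∑ l, h k l * (x l : ℝ))]
    rfl
  refine ⟨Matrix.diagonal v * h.submatrix σ id, ?_, hgen h, fun x => ?_⟩
  · rw [Matrix.det_mul, Matrix.det_diagonal, hvprod, Matrix.det_permute]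
    refine mul_ne_zero hs (mul_ne_zero ?_ hh)
    rcases Int.units_eq_one_or (Equiv.Perm.sign σ) with h | h <;> rw [h] <;> simp
  · rw [← hgen]
    congr 1
    rw [addRow, elem_eq]
    ext k l
    rw [Matrix.diagonal_mul, Matrix.submatrix_apply, id]
    by_cases hk : k = i
    · rw [hk, Matrix.updateRow_self, hσi, Matrix.updateRow_self]
      simp only [Pi.add_apply, Matrix.diagonal_mul, Matrix.submatrix_apply, id, hσi, hσj, hv,
        if_neg hij, if_true, Pi.smul_apply, smul_eq_mul]
      ring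
    · have hσk : σ k ≠ i' := fun h => hk (σ.injective (h.trans hσi.symm))
      rw [Matrix.updateRow_ne hk, Matrix.updateRow_ne hσk, Matrix.diagonal_mul,
        Matrix.submatrix_apply, id]

/-- a counterexample yields a normalised pair -/
lemma exists_normal (hd : 3 ≤ d) {i j : Fin d} (hij : i ≠ j) (h : ¬ CSD d) :
    ∃ g : Matrix (Fin d) (Fin d) ℝ, g.det ≠ 0 ∧ (∃ ν : ℝ, 0 < ν ∧
      ∀ x : Fin d → ℤ, x ≠ 0 → ν ≤ |F g x| ∧ ν ≤ |F (addRow i j g) x|) ∧
      ValueClosure g = ValueClosure (addRow i j g) := by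
  simp only [CSD, Small, not_forall, not_exists, not_and, not_lt] at h
  obtain ⟨g₀, hg₀, hint, ν, hν, hnu⟩ := h
  obtain ⟨h, hh, i', j', s, hij', hs, hh', hcl⟩ :=
    TH314.CSD.exists_pair hd hg₀ hν (fun m hm => hnu m hm) hint
  have hdet : h.det ≠ 0 := by
    intro h0
    have := abs_det_closure hh
    rw [h0, abs_zero] at this
    exact hg₀ (abs_eq_zero.1 this.symm)
  obtain ⟨g, hg, hg1, hg2⟩ := normalise (i := i) (j := j) hij hij' hs h hdet
  have hn1 : HasNu h ν := hasNu_closure (fun m hm => hnu m hm) hh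
  have hn2 := hasNu_closure (ν := ν) (fun m hm => hnu m hm) hh'
  refine ⟨g, hg, ⟨|s| * ν, mul_pos (abs_pos.2 hs) hν, fun x hx => ⟨?_, ?_⟩⟩, ?_⟩
  · rw [hg1, abs_mul]
    exact mul_le_mul_of_nonneg_left (hn1 x hx) (abs_nonneg s)
  · rw [hg2, abs_mul]
    exact mul_le_mul_of_nonneg_left (hn2 x hx) (abs_nonneg s)
  · have himg : ∀ (g h : Matrix (Fin d) (Fin d) ℝ), (∀ x, F g x = s * F h x) →
        ValueClosure g = (fun t => s * t) '' ValueClosure h := by
      intro g h hgh
      have h1 : {t : ℝ | ∃ x : Fin d → ℤ, x ≠ 0 ∧ F g x = t} =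
          (fun t => s * t) '' {t : ℝ | ∃ x : Fin d → ℤ, x ≠ 0 ∧ F h x = t} := by
        ext t
        constructor
        · rintro ⟨x, hx, rfl⟩
          exact ⟨F h x, ⟨x, hx, rfl⟩, (hgh x).symm⟩
        · rintro ⟨_, ⟨x, hx, rfl⟩, rfl⟩
          exact ⟨x, hx, hgh x⟩
      rw [ValueClosure, h1]
      exact ((Homeomorph.mulLeft₀ s hs).image_closure _).symm
    rw [himg _ _ hg1, himg _ _ hg2]
    congr 1

theorem result (d : ℕ) (hd : 3 ≤ d) (i j : Fin d) (hij : i ≠ j) :
    -- the conjecture in dimension `d` says that one of the two products has small values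
    (CSD d ↔ ∀ g : Matrix (Fin d) (Fin d) ℝ, g.det ≠ 0 → ∀ ε : ℝ, 0 < ε →
      ∃ x : Fin d → ℤ, x ≠ 0 ∧ (|F g x| < ε ∨ |F (addRow i j g) x| < ε)) ∧
    -- the same for pairs of products with the same limit values
    (CSD d ↔ ∀ g : Matrix (Fin d) (Fin d) ℝ, g.det ≠ 0 →
      ValueClosure g = ValueClosure (addRow i j g) → Small g) ∧
    -- if both products are bounded below then both are counterexamples
    (∀ g : Matrix (Fin d) (Fin d) ℝ, g.det ≠ 0 → ∀ ν : ℝ, 0 < ν →
      (∀ x : Fin d → ℤ, x ≠ 0 → ν ≤ |F g x| ∧ ν ≤ |F (addRow i j g) x|) →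
      ¬ PropInt g ∧ ¬ PropInt (addRow i j g)) := by
  have hpair : ∀ g : Matrix (Fin d) (Fin d) ℝ, g.det ≠ 0 → ∀ ν : ℝ, 0 < ν →
      (∀ x : Fin d → ℤ, x ≠ 0 → ν ≤ |F g x| ∧ ν ≤ |F (addRow i j g) x|) →
      ¬ PropInt g ∧ ¬ PropInt (addRow i j g) := fun g hg ν hν h =>
    pair_not_propInt hd hij g hg ν hν (fun x hx => (h x hx).1) (fun x hx => (h x hx).2)
  refine ⟨⟨?_, ?_⟩, ⟨?_, ?_⟩, hpair⟩
  · intro hC g hg ε hε
    by_contra hcon
    push Not at hcon
    obtain ⟨hn1, -⟩ := hpair g hg ε hε hcon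
    obtain ⟨x, hx, hx2⟩ := hC g hg hn1 ε hε
    exact absurd (hcon x hx).1 (not_le.2 hx2)
  · intro h
    by_contra hC
    obtain ⟨g, hg, ⟨ν, hν, hnu⟩, -⟩ := exists_normal hd hij hC
    obtain ⟨x, hx, hx2⟩ := h g hg ν hν
    rcases hx2 with hx2 | hx2
    · exact absurd (hnu x hx).1 (not_le.2 hx2)
    · exact absurd (hnu x hx).2 (not_le.2 hx2)
  · intro hC g hg hcl
    by_contra hcon
    simp only [Small, not_forall, not_exists, not_and, not_lt] at hcon
    obtain ⟨ν, hν, hnu⟩ := hcon
    have hnu' : ∀ x : Fin d → ℤ, x ≠ 0 → ν ≤ |F (addRow i j g) x| := by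
      intro x hx
      have h1 : F (addRow i j g) x ∈ ValueClosure g := by
        rw [hcl]
        exact subset_closure ⟨x, hx, rfl⟩
      have h2 : ValueClosure g ⊆ {t : ℝ | ν ≤ |t|} := by
        refine closure_minimal ?_ (isClosed_le continuous_const continuous_abs)
        rintro t ⟨y, hy, rfl⟩
        exact hnu y hy
      exact h2 h1
    obtain ⟨hn1, -⟩ := hpair g hg ν hν (fun x hx => ⟨hnu x hx, hnu' x hx⟩)
    obtain ⟨x, hx, hx2⟩ := hC g hg hn1 ν hν
    exact absurd (hnu x hx) (not_le.2 hx2)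
  · intro h
    by_contra hC
    obtain ⟨g, hg, ⟨ν, hν, hnu⟩, hcl⟩ := exists_normal hd hij hC
    obtain ⟨x, hx, hx2⟩ := h g hg hcl ν hν
    exact absurd (hnu x hx).1 (not_le.2 hx2)

end Pool.Agent.Results.MP_edeaa2_an.TwoProducts
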