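import Mathlib
import Pool.Agent.TH314.CSD.Attain

/-! # MP_edeaa2_an: the values of recurrent counterexamples to the conjecture of Cassels and
Swinnerton-Dyer

Let `d ≥ 3` and let `g` be a counterexample: a real invertible `d × d` matrix such that the product
`F g` of the linear forms given by its rows is not proportional to an integral form and
`|F g| ≥ ν > 0` at all nonzero integer points. Let `OrbitClosure g` be the set of the limits of the
matrices `diag(a) g γ`, `a` positive of product one, `γ` integral of determinant `±1`. Call `h`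
recurrent if `h ∈ OrbitClosure h'` for all `h' ∈ OrbitClosure h`.

1. There is a recurrent `h ∈ OrbitClosure g` such that `|F h|` attains its minimum over the nonzero
   integer points.
2. Every recurrent `h ∈ OrbitClosure g` is a counterexample, with the same `ν`, and near every
   single one of its values there are differences of values at all scales: if `U` is an open set
   which contains a value `F h x`, then there are `R` and `ε > 0` such that for all `0 < η < ε` two
   values of `F h` in `U` have a distance in `[η, R η]`. The closure of the set of the values in `U`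
   is not contained in a countable union of lacunary sets.

So a recurrent form which is bounded below and has one isolated value is proportional to an
integral form. -/

set_option autoImplicit false

open Filter Topology

namespace Pool.Agent.Results.MP_edeaa2_an.ValuesAtAllScales

variable {d : ℕ}

/-- the product of the linear forms given by the rows of `h`, at an integer point -/
noncomputable def F (h : Matrix (Fin d) (Fin d) ℝ) (x : Fin d → ℤ) : ℝ :=
  ∏ i : Fin d, ∑ j : Fin d, h i j * (x j : ℝ)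

/-- the product of the linear forms is proportional to a form with integer coefficients -/
def PropInt (h : Matrix (Fin d) (Fin d) ℝ) : Prop :=
  ∃ c : ℝ, c ≠ 0 ∧ ∀ m : Fin d →₀ ℕ, ∃ z : ℤ, MvPolynomial.coeff m
    (c • (∏ i : Fin d, ∑ j : Fin d,
      MvPolynomial.C (h i j) * MvPolynomial.X j : MvPolynomial (Fin d) ℝ)) = (z : ℝ)

/-- The closure of the set of matrices `diag(a) g γ` with `a` positive of product one and `γ`
integral of determinant `±1`. -/
def OrbitClosure (g : Matrix (Fin d) (Fin d) ℝ) : Set (Matrix (Fin d) (Fin d) ℝ) :=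
  closure {h | ∃ (a : Fin d → ℝ) (γ : Matrix (Fin d) (Fin d) ℤ), (∀ i, 0 < a i) ∧ ∏ i, a i = 1 ∧
    |γ.det| = 1 ∧ h = Matrix.diagonal a * g * γ.map (Int.cast : ℤ → ℝ)}

/-- The orbit closure of `h` is minimal. -/
def Recurrent (h : Matrix (Fin d) (Fin d) ℝ) : Prop :=
  ∀ h' ∈ OrbitClosure h, h ∈ OrbitClosure h'

/-- The differences of `S` skip arbitrarily long ranges of scales, arbitrarily close to zero. -/
def Lacunary (S : Set ℝ) : Prop :=
  ∀ R : ℝ, 1 < R → ∀ ε : ℝ, 0 < ε → ∃ η : ℝ, 0 < η ∧ η < ε ∧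
    ∀ s ∈ S, ∀ t ∈ S, |s - t| < η ∨ R * η < |s - t|

lemma closure_eq (g : Matrix (Fin d) (Fin d) ℝ) : OrbitClosure g = closure (H715R2.Orb g) := by
  unfold OrbitClosure H715R2.Orb
  congr 1
  ext h
  constructor
  · rintro ⟨a, γ, ha0, ha1, hγ, hh⟩
    exact ⟨a, γ, ha0, ha1, Int.isUnit_iff_abs_eq.2 hγ, hh⟩
  · rintro ⟨a, γ, ha0, ha1, hγ, hh⟩
    exact ⟨a, γ, ha0, ha1, Int.isUnit_iff_abs_eq.1 hγ, hh⟩

lemma recurrent_iff (h : Matrix (Fin d) (Fin d) ℝ) :
    Recurrent h ↔ TH314.CSD.Recurrent h := by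
  unfold Recurrent TH314.CSD.Recurrent
  simp only [closure_eq]

theorem result (d : ℕ) (hd : 3 ≤ d) (g : Matrix (Fin d) (Fin d) ℝ) (hg : g.det ≠ 0)
    (hint : ¬ PropInt g) (ν : ℝ) (hν : 0 < ν) (hF : ∀ x : Fin d → ℤ, x ≠ 0 → ν ≤ |F g x|) :
    -- 1. recurrent limits which attain their minimum
    (∃ h ∈ OrbitClosure g, Recurrent h ∧ ∃ x₀ : Fin d → ℤ, x₀ ≠ 0 ∧
      ∀ x : Fin d → ℤ, x ≠ 0 → |F h x₀| ≤ |F h x|) ∧
    -- 2. recurrent limits are counterexamples
    (∀ h ∈ OrbitClosure g, Recurrent h →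
      ¬ PropInt h ∧ (∀ x : Fin d → ℤ, x ≠ 0 → ν ≤ |F h x|) ∧
      -- with differences of values at all scales near each value
      ∀ x : Fin d → ℤ, x ≠ 0 → ∀ U : Set ℝ, IsOpen U → F h x ∈ U →
        (∃ R : ℝ, 1 < R ∧ ∃ ε : ℝ, 0 < ε ∧ ∀ η : ℝ, 0 < η → η < ε →
          ∃ y y' : Fin d → ℤ, y ≠ 0 ∧ y' ≠ 0 ∧ F h y ∈ U ∧ F h y' ∈ U ∧
            η ≤ |F h y - F h y'| ∧ |F h y - F h y'| ≤ R * η) ∧
        ∀ C : ℕ → Set ℝ, (∀ k, Lacunary (C k)) →
          ¬ closure {t : ℝ | ∃ y : Fin d → ℤ, y ≠ 0 ∧ F h y = t ∧ t ∈ U} ⊆ ⋃ k, C k) := by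
  have hd0 : 0 < d := by omega
  refine ⟨?_, ?_⟩
  · obtain ⟨h, hh, hrec, x₀, hx₀, hmin⟩ := TH314.CSD.exists_recurrent_attained hd0 hν hg hF
    exact ⟨h, by rw [closure_eq]; exact hh, (recurrent_iff h).2 hrec, x₀, hx₀, hmin⟩
  · intro h hh hrec
    rw [closure_eq] at hh
    obtain ⟨h1, h2, h3⟩ := TH314.CSD.recurrent_values hd hg hν hF hint hh
      ((recurrent_iff h).1 hrec)
    exact ⟨h1, H715R2.hasNu_closure hF hh, fun x hx U hU hxU =>
      ⟨h2 x hx U hU hxU, fun C hC => h3 x hx U hU hxU C hC⟩⟩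

end Pool.Agent.Results.MP_edeaa2_an.ValuesAtAllScales
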